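import Pool.Agent.R630.CAQ.Grp

set_option autoImplicit false
set_option linter.unusedSectionVars false

/-! # The CA property -/

namespace Pool.Agent.R630.CAQ

noncomputable section

variable {Q : Type} [Group Q] [Fintype Q] [TopologicalSpace Q] [DiscreteTopology Q]
variable {D : Data Q}

theorem mem_anti {x : W Q} (hx : x ∈ G D) : Anti D x.f := hx.1

/-- If `c` has trivial `Q`-component and commutes with `g` whose `Q`-component is nontrivial
then `c` is trivial. -/
theorem eq_one_of_q {c g : W Q} (hc : c ∈ G D) (hq : c.q = 1) (hg : g.q ≠ 1)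
    (h : c * g = g * c) : c = 1 := by
  have h1 : ∀ r, c.f (g.q⁻¹ * r) = c.f r := by
    intro r
    have := congrArg (fun x : W Q => x.f r) h
    simp only [mul_f, hq, inv_one, one_mul] at this
    linear_combination -this
  ext r
  · rw [(mem_anti hc).eq_zero hg h1 r, one_f]
  · rw [hq, one_q]

/-- The CA property. -/
theorem ca {g x y : W Q} (hg : g ∈ G D) (hx : x ∈ G D) (hy : y ∈ G D) (hg1 : g ≠ 1)
    (h1 : x * g = g * x) (h2 : y * g = g * y) : x * y = y * x := by
  by_cases hq : g.q = 1
  · -- `g = (v, 1)`
    have key : ∀ w : W Q, w ∈ G D → w * g = g * w → w.q = 1 := by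
      intro w hw hc
      by_contra hne
      apply hg1
      refine eq_one_of_q hg hq hne hc.symm
    have hxq := key x hx h1
    have hyq := key y hy h2
    ext r
    · simp only [mul_f, hxq, hyq, inv_one, one_mul]
      ring
    · simp [hxq, hyq]
  · by_cases hc : x.q * y.q = y.q * x.q
    · have h3 : x * y * x⁻¹ * y⁻¹ = 1 := by
        refine eq_one_of_q (D := D) (g := g)
          (mul_mem (mul_mem (mul_mem hx hy) (inv_mem hx)) (inv_mem hy)) ?_ hq ?_
        · simp only [mul_q, inv_q]
          rw [hc]
          group
        · have c1 : Commute x g := h1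
          have c2 : Commute y g := h2
          exact ((c1.mul_left c2).mul_left c1.inv_left).mul_left c2.inv_left
      rw [mul_inv_eq_one, mul_inv_eq_iff_eq_mul] at h3
      exact h3
    · exfalso
      have hxg : x.q * g.q = g.q * x.q := by
        have := congrArg W.q h1
        simpa using this
      have hyg : y.q * g.q = g.q * y.q := by
        have := congrArg W.q h2
        simpa using this
      have hz : g.q = D.z := by
        by_contra hne
        exact hc (D.cent g.q x.q y.q hq hne hxg hyg)
      let S : Subgroup Q :=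
        { carrier := {p | ∃ w ∈ G D, w * g = g * w ∧ w.q = p}
          one_mem' := ⟨1, one_mem _, by simp, rfl⟩
          mul_mem' := by
            rintro a b ⟨w, hw, hwg, rfl⟩ ⟨w', hw', hwg', rfl⟩
            refine ⟨w * w', mul_mem hw hw', ?_, rfl⟩
            exact Commute.mul_left hwg hwg'
          inv_mem' := by
            rintro a ⟨w, hw, hwg, rfl⟩
            exact ⟨w⁻¹, inv_mem hw, (show Commute w g from hwg).inv_left, rfl⟩ }
      obtain ⟨u, ⟨wu, hwu, hwug, hwuq⟩, h, ⟨wh, hwh, hwhg, hwhq⟩, huu, hhh, hhu, hχ⟩ :=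
        D.nc S x.q y.q ⟨x, hx, h1, rfl⟩ ⟨y, hy, h2, rfl⟩ hc
      have e : ∀ (w : W Q) (p : Q), w ∈ G D → w * g = g * w → w.q = p →
          ∀ r, g.f r - g.f (p⁻¹ * r) = 2 * w.f r := by
        intro w p hw hwg hp r
        have := congrArg (fun x : W Q => x.f r) hwg
        simp only [mul_f, hz, hp, D.z_inv] at this
        rw [(mem_anti hw) r] at this
        linear_combination -this
      have h4 := norm_dvd (D := D) huu hhh hhu (mem_anti hg) (mem_anti hwh)
        (e wh h hwh hwhg hwhq) (e wu u hwu hwug hwuq)
      have h5 := hwh.2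
      rw [hwhq, hχ] at h5
      have h6 : (4 : ℤ_[2]) ∣ 2 := by
        have := dvd_sub h4 h5
        simpa using this
      have h7 : (2 : ℤ_[2]) ∣ 1 := by
        obtain ⟨k, hk⟩ := h6
        refine ⟨k, ?_⟩
        apply mul_left_cancel₀ two_ne
        linear_combination hk
      exact (PadicInt.prime_p (p := 2)).not_isUnit (isUnit_of_dvd_one (by exact_mod_cast h7))

end

end Pool.Agent.R630.CAQ
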