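import Mathlib

set_option autoImplicit false
set_option linter.unusedSectionVars false

/-! # A profinite CA-group built from a finite group with a central involution -/

namespace Pool.Agent.R630.CAQ

noncomputable section

section Wreath

variable (Q : Type) [Group Q] [Fintype Q] [TopologicalSpace Q] [DiscreteTopology Q]

/-- The underlying space of the regular wreath product of `ℤ_[2]` and `Q`. -/
structure W where
  f : Q → ℤ_[2]
  q : Q

variable {Q}

omit [Group Q] [Fintype Q] [TopologicalSpace Q] [DiscreteTopology Q] in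
@[ext] theorem W.ext' {x y : W Q} (h1 : ∀ r, x.f r = y.f r) (h2 : x.q = y.q) : x = y := by
  cases x; cases y
  simp only [W.mk.injEq]
  exact ⟨funext h1, h2⟩

/-- translation of functions -/
def tr (p : Q) (f : Q → ℤ_[2]) : Q → ℤ_[2] := fun r => f (p⁻¹ * r)

omit [Fintype Q] [TopologicalSpace Q] [DiscreteTopology Q] in
@[simp] theorem tr_apply (p : Q) (f : Q → ℤ_[2]) (r : Q) : tr p f r = f (p⁻¹ * r) := rfl

instance : Mul (W Q) := ⟨fun x y => ⟨x.f + tr x.q y.f, x.q * y.q⟩⟩
instance : One (W Q) := ⟨⟨0, 1⟩⟩
instance : Inv (W Q) := ⟨fun x => ⟨-tr x.q⁻¹ x.f, x.q⁻¹⟩⟩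

@[simp] theorem mul_f (x y : W Q) (r : Q) : (x * y).f r = x.f r + y.f (x.q⁻¹ * r) := rfl
@[simp] theorem mul_q (x y : W Q) : (x * y).q = x.q * y.q := rfl
@[simp] theorem one_f (r : Q) : (1 : W Q).f r = 0 := rfl
@[simp] theorem one_q : (1 : W Q).q = 1 := rfl
@[simp] theorem inv_f (x : W Q) (r : Q) : (x⁻¹).f r = - x.f (x.q * r) := by
  show -(x.f ((x.q⁻¹)⁻¹ * r)) = _
  rw [inv_inv]
@[simp] theorem inv_q (x : W Q) : (x⁻¹).q = x.q⁻¹ := rfl

instance : Group (W Q) where
  mul_assoc x y z := by
    ext r
    · simp only [mul_f, mul_q, mul_inv_rev]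
      rw [add_assoc, mul_assoc]
    · simp only [mul_q, mul_assoc]
  one_mul x := by
    ext r
    · simp
    · simp
  mul_one x := by
    ext r
    · simp
    · simp
  inv_mul_cancel x := by
    ext r
    · simp
    · simp

/-- `W Q` as a product -/
def toProd (x : W Q) : (Q → ℤ_[2]) × Q := (x.f, x.q)

/-- `W Q` as a product -/
def equivProd : W Q ≃ (Q → ℤ_[2]) × Q where
  toFun := toProd
  invFun y := ⟨y.1, y.2⟩
  left_inv _ := rfl
  right_inv _ := rfl

instance : TopologicalSpace (W Q) := TopologicalSpace.induced toProd inferInstance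

/-- the homeomorphism with the product -/
def homeo : W Q ≃ₜ (Q → ℤ_[2]) × Q where
  toEquiv := equivProd
  continuous_toFun := continuous_induced_dom
  continuous_invFun := continuous_induced_rng.2 continuous_id

theorem continuous_f : Continuous fun x : W Q => x.f :=
  continuous_fst.comp (homeo (Q := Q)).continuous

theorem continuous_q : Continuous fun x : W Q => x.q :=
  continuous_snd.comp (homeo (Q := Q)).continuous

theorem continuous_mk {X : Type} [TopologicalSpace X] {F : X → Q → ℤ_[2]} {k : X → Q}
    (hF : Continuous F) (hk : Continuous k) : Continuous fun x => (⟨F x, k x⟩ : W Q) :=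
  (homeo (Q := Q)).symm.continuous.comp (hF.prodMk hk)

theorem continuous_eval : Continuous fun p : (Q → ℤ_[2]) × Q => p.1 p.2 := by
  rw [continuous_prod_of_discrete_right]
  intro b
  exact continuous_apply b

instance : IsTopologicalGroup (W Q) where
  continuous_mul := by
    apply continuous_mk
    · refine continuous_pi fun r => ?_
      refine Continuous.add ?_ ?_
      · exact (continuous_apply r).comp (continuous_f.comp continuous_fst)
      · have h : Continuous fun p : W Q × W Q => (p.2.f, p.1.q⁻¹ * r) :=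
          (continuous_f.comp continuous_snd).prodMk
            ((continuous_of_discreteTopology (f := fun x : Q => x⁻¹ * r)).comp
              (continuous_q.comp continuous_fst))
        exact continuous_eval.comp h
    · exact (continuous_of_discreteTopology (f := fun x : Q × Q => x.1 * x.2)).comp
        ((continuous_q.comp continuous_fst).prodMk (continuous_q.comp continuous_snd))
  continuous_inv := by
    apply continuous_mk
    · refine continuous_pi fun r => ?_
      refine Continuous.neg ?_
      have h : Continuous fun p : W Q => (p.f, (p.q⁻¹)⁻¹ * r) :=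
        continuous_f.prodMk
          ((continuous_of_discreteTopology (f := fun x : Q => (x⁻¹)⁻¹ * r)).comp continuous_q)
      exact continuous_eval.comp h
    · exact (continuous_of_discreteTopology (f := fun x : Q => x⁻¹)).comp continuous_q

instance : CompactSpace (W Q) := (homeo (Q := Q)).symm.compactSpace
instance : T2Space (W Q) := (homeo (Q := Q)).symm.t2Space
instance : TotallyDisconnectedSpace (W Q) := (homeo (Q := Q)).symm.totallyDisconnectedSpace

end Wreath

section Sums

variable {Q : Type} [Group Q] [Fintype Q]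

/-- the invariant bilinear form -/
def ip (f g : Q → ℤ_[2]) : ℤ_[2] := ∑ r, f r * g r

theorem ip_tr (p : Q) (f g : Q → ℤ_[2]) : ip (tr p f) (tr p g) = ip f g := by
  unfold ip
  exact Equiv.sum_comp (Equiv.mulLeft p⁻¹) fun r => f r * g r

theorem ip_comm (f g : Q → ℤ_[2]) : ip f g = ip g f := by
  unfold ip
  exact Finset.sum_congr rfl fun r _ => mul_comm _ _

theorem dvd_sum (H : Subgroup Q) (c : Q → ℤ_[2]) (hc : ∀ h ∈ H, ∀ r, c (h * r) = c r)
    (m : ℤ_[2]) (hm : ∀ r, m ∣ c r) : (Nat.card H : ℤ_[2]) * m ∣ ∑ r, c r := by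
  classical
  have e1 : ∑ r, c r = ∑ r, c r⁻¹ := (Equiv.sum_comp (Equiv.inv Q) fun r => c r).symm
  have e2 : ∑ r, c r⁻¹ = ∑ x : Q ⧸ H, ∑ r ∈ Finset.univ.filter (fun r : Q => (r : Q ⧸ H) = x),
      c r⁻¹ := (Finset.sum_fiberwise Finset.univ (fun r : Q => (r : Q ⧸ H)) fun r => c r⁻¹).symm
  rw [e1, e2]
  refine Finset.dvd_sum fun x _ => ?_
  have e3 : ∀ r ∈ Finset.univ.filter (fun r : Q => (r : Q ⧸ H) = x), c r⁻¹ = c (x.out)⁻¹ := by
    intro r hr
    rw [Finset.mem_filter] at hr
    have h1 : ((x.out : Q) : Q ⧸ H) = (r : Q ⧸ H) := by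
      rw [hr.2]
      exact Quotient.out_eq' x
    have h2 := QuotientGroup.eq.1 h1
    have h3 := hc _ h2 r⁻¹
    rw [mul_assoc, mul_inv_cancel, mul_one] at h3
    exact h3.symm
  rw [Finset.sum_congr rfl e3, Finset.sum_const, nsmul_eq_mul]
  have e4 : (Finset.univ.filter (fun r : Q => (r : Q ⧸ H) = x)).card = Nat.card H := by
    have h1 := Nat.card_congr (QuotientGroup.preimageMkEquivSubgroupProdSet H {x})
    have h2 : Nat.card ({x} : Set (Q ⧸ H)) = 1 := by simp
    rw [Nat.card_prod, h2, mul_one] at h1
    rw [← h1, Nat.card_eq_card_toFinset]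
    congr 1
    ext r
    simp
  rw [e4]
  exact mul_dvd_mul_left _ (hm _)

end Sums

end

end Pool.Agent.R630.CAQ
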