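import Pool.Agent.R630.CAQ.Core

set_option autoImplicit false
set_option linter.unusedSectionVars false

/-! # The CA-group -/

namespace Pool.Agent.R630.CAQ

noncomputable section

variable {Q : Type} [Group Q] [Fintype Q] [TopologicalSpace Q] [DiscreteTopology Q]

/-- The hypotheses on the finite group `Q`, its central involution `z`, and the character `χ`
(with values `0`, `2` modulo `4`). -/
structure Data (Q : Type) [Group Q] [Fintype Q] where
  z : Q
  χ : Q → ℤ
  z_ne : z ≠ 1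
  z_sq : z * z = 1
  z_comm : ∀ q, z * q = q * z
  pow : ∀ q : Q, q ≠ 1 → ∃ k : ℕ, q ^ k = z
  cent : ∀ q p p' : Q, q ≠ 1 → q ≠ z → p * q = q * p → p' * q = q * p' → p * p' = p' * p
  χ_mul : ∀ p q, (4 : ℤ) ∣ χ (p * q) - χ p - χ q
  χ_even : ∀ q, (2 : ℤ) ∣ χ q
  χ_z : (4 : ℤ) ∣ χ z
  pgrp : IsPGroup 2 Q
  nc : ∀ (S : Subgroup Q) (p p' : Q), p ∈ S → p' ∈ S → p * p' ≠ p' * p →
    ∃ u ∈ S, ∃ h ∈ S, u * u = z ∧ h * h = z ∧ h * u = z * (u * h) ∧ χ h = 2

variable (D : Data Q)

/-- antisymmetric functions -/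
def Anti (f : Q → ℤ_[2]) : Prop := ∀ r, f (D.z * r) = - f r

variable {D}

theorem Data.z_inv : D.z⁻¹ = D.z := inv_eq_of_mul_eq_one_left D.z_sq

theorem Data.inv_of_sq {h : Q} (hh : h * h = D.z) : h⁻¹ = D.z * h := by
  rw [inv_eq_iff_mul_eq_one, ← mul_assoc, ← D.z_comm, mul_assoc, hh, D.z_sq]

theorem Anti.tr {f : Q → ℤ_[2]} (hf : Anti D f) (p : Q) : Anti D (tr p f) := by
  intro r
  show f (p⁻¹ * (D.z * r)) = - f (p⁻¹ * r)
  rw [← mul_assoc, ← D.z_comm, mul_assoc, hf]

theorem Anti.add {f g : Q → ℤ_[2]} (hf : Anti D f) (hg : Anti D g) : Anti D (f + g) := by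
  intro r
  show f _ + g _ = -(f r + g r)
  rw [hf, hg, neg_add]

theorem two_ne : (2 : ℤ_[2]) ≠ 0 := two_ne_zero

theorem eq_zero_of_neg {x : ℤ_[2]} (h : x = -x) : x = 0 := by
  have h1 : (2 : ℤ_[2]) * x = 0 := by linear_combination h
  exact (mul_eq_zero.1 h1).resolve_left two_ne

/-- A nontrivial element has no nonzero fixed antisymmetric functions. -/
theorem Anti.eq_zero {f : Q → ℤ_[2]} (hf : Anti D f) {q : Q} (hq : q ≠ 1)
    (h : ∀ r, f (q⁻¹ * r) = f r) : ∀ r, f r = 0 := by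
  obtain ⟨k, hk⟩ := D.pow q hq
  have h1 : ∀ r, f (q * r) = f r := fun r => by
    rw [← h (q * r), inv_mul_cancel_left]
  have h2 : ∀ (j : ℕ) r, f (q ^ j * r) = f r := by
    intro j
    induction j with
    | zero => intro r; rw [pow_zero, one_mul]
    | succ j ih => intro r; rw [pow_succ, mul_assoc, ih, h1]
  intro r
  apply eq_zero_of_neg
  rw [← hf r, ← hk, h2]

theorem two_dvd_ip {f g : Q → ℤ_[2]} (hf : Anti D f) (hg : Anti D g) : (2 : ℤ_[2]) ∣ ip f g := by
  have h := dvd_sum (Subgroup.zpowers D.z) (fun r => f r * g r) (by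
    intro h hh r
    obtain ⟨k, rfl⟩ := Subgroup.mem_zpowers_iff.1 hh
    have h2 : ∀ j : ℤ, ∀ r, f (D.z ^ j * r) * g (D.z ^ j * r) = f r * g r := by
      intro j
      induction j with
      | zero => intro r; simp
      | succ n ih =>
        intro r
        rw [zpow_add, zpow_one, mul_assoc, ih, hf, hg]
        ring
      | pred n ih =>
        intro r
        rw [zpow_sub, zpow_one, D.z_inv, mul_assoc, ih, hf, hg]
        ring
    exact h2 k r) 1 (fun r => one_dvd _)
  have hc : Nat.card (Subgroup.zpowers D.z) = 2 := by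
    rw [Nat.card_zpowers]
    refine orderOf_eq_prime ?_ D.z_ne
    rw [pow_two]
    exact D.z_sq
  rw [hc] at h
  simpa [ip] using h

variable (D)

/-- The group: pairs `(f, q)` with `f` antisymmetric and `⟨f, f⟩ ≡ χ(q)` modulo `4`. -/
def G : Subgroup (W Q) where
  carrier := {x | Anti D x.f ∧ (4 : ℤ_[2]) ∣ ip x.f x.f - (D.χ x.q : ℤ_[2])}
  mul_mem' := by
    rintro x y ⟨hx, hx'⟩ ⟨hy, hy'⟩
    refine ⟨hx.add (hy.tr x.q), ?_⟩
    have e1 : ip (x * y).f (x * y).f = ip x.f x.f + 2 * ip x.f (tr x.q y.f) + ip y.f y.f := by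
      rw [← ip_tr x.q y.f y.f]
      show ip (x.f + tr x.q y.f) (x.f + tr x.q y.f) = _
      simp only [ip, Pi.add_apply, Finset.mul_sum, ← Finset.sum_add_distrib]
      refine Finset.sum_congr rfl fun r _ => ?_
      ring
    obtain ⟨a, ha⟩ := hx'
    obtain ⟨b, hb⟩ := hy'
    obtain ⟨c, hc⟩ := two_dvd_ip hx (hy.tr x.q)
    obtain ⟨d, hd⟩ := D.χ_mul x.q y.q
    have hd' : (D.χ (x * y).q : ℤ_[2]) = D.χ x.q + D.χ y.q + 4 * d := by
      rw [mul_q]
      have : D.χ (x.q * y.q) = D.χ x.q + D.χ y.q + 4 * d := by linear_combination hd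
      rw [this]
      push_cast
      ring
    refine ⟨a + b + c - d, ?_⟩
    rw [e1, hd', hc]
    linear_combination ha + hb
  one_mem' := by
    refine ⟨fun r => by simp, ?_⟩
    obtain ⟨d, hd⟩ := D.χ_mul 1 1
    refine ⟨d, ?_⟩
    have h0 : ip (1 : W Q).f (1 : W Q).f = 0 := by simp [ip]
    have h1 : (D.χ 1 : ℤ_[2]) = -(4 * d) := by
      have : D.χ 1 = -(4 * d) := by
        rw [mul_one] at hd
        linear_combination -hd
      rw [this]
      push_cast
      ring
    rw [h0, one_q, h1]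
    ring
  inv_mem' := by
    rintro x ⟨hx, hx'⟩
    refine ⟨fun r => ?_, ?_⟩
    · rw [inv_f, inv_f, ← mul_assoc, ← D.z_comm, mul_assoc, hx]
    · have e1 : ip (x⁻¹).f (x⁻¹).f = ip x.f x.f := by
        rw [← ip_tr x.q⁻¹ x.f x.f]
        simp only [ip]
        refine Finset.sum_congr rfl fun r _ => ?_
        rw [inv_f, tr_apply, inv_inv]
        ring
      obtain ⟨a, ha⟩ := hx'
      obtain ⟨d, hd⟩ := D.χ_mul x.q x.q⁻¹
      obtain ⟨e, he⟩ := D.χ_mul 1 1
      obtain ⟨c, hc⟩ := D.χ_even x.q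
      have hd' : (D.χ (x⁻¹).q : ℤ_[2]) = D.χ x.q - 4 * (c + d + e) := by
        rw [inv_q]
        have : D.χ (x.q⁻¹) = D.χ x.q - 4 * (c + d + e) := by
          rw [mul_inv_cancel] at hd
          rw [mul_one] at he
          linear_combination -hd - he - 2 * hc
        rw [this]
        push_cast
        ring
      refine ⟨a + c + d + e, ?_⟩
      rw [e1, hd']
      linear_combination ha

variable {D}

theorem eight_dvd_card (S : Subgroup Q) {u h : Q} (hu : u ∈ S) (hh : h ∈ S)
    (hne : u * h ≠ h * u) (hp : IsPGroup 2 Q) : 8 ∣ Nat.card S := by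
  have hS : IsPGroup 2 S := hp.to_subgroup S
  obtain ⟨k, hk⟩ := IsPGroup.iff_card.1 hS
  have : Fact (Nat.Prime 2) := ⟨Nat.prime_two⟩
  have hnc : ¬ ∀ a b : S, a * b = b * a := fun hc => hne (congrArg Subtype.val
    (hc ⟨u, hu⟩ ⟨h, hh⟩))
  rw [hk]
  rcases Nat.lt_or_ge k 3 with h3 | h3
  · exfalso
    apply hnc
    interval_cases k
    · have : Subsingleton S := (Nat.card_eq_one_iff_unique.1 (by simpa using hk)).1
      intro a b
      exact Subsingleton.elim _ _
    · have : IsCyclic S := isCyclic_of_prime_card (p := 2) (by simpa using hk)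
      intro a b
      exact (IsCyclic.commGroup (α := S)).mul_comm a b
    · intro a b
      exact (IsPGroup.commGroupOfCardEqPrimeSq (p := 2) hk).mul_comm a b
  · exact pow_dvd_pow 2 h3 |> fun h => by simpa using h

/-- The main computation. -/
theorem norm_dvd {u h : Q} (hu : u * u = D.z) (hh : h * h = D.z) (huh : h * u = D.z * (u * h))
    {v w w' : Q → ℤ_[2]} (hv : Anti D v) (hw : Anti D w)
    (e : ∀ r, v r - v (h⁻¹ * r) = 2 * w r) (e' : ∀ r, v r - v (u⁻¹ * r) = 2 * w' r) :
    (4 : ℤ_[2]) ∣ ip w w := by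
  have hne : u * h ≠ h * u := by
    intro hc
    rw [huh] at hc
    have : D.z = 1 := by
      have h1 := mul_right_cancel (b := u * h) (a := 1) (c := D.z) (by rw [one_mul]; exact hc)
      exact h1.symm
    exact D.z_ne this
  have hvsq : ∀ r, v (D.z * r) ^ 2 = v r ^ 2 := fun r => by rw [hv]; ring
  have ev : ∀ r, v (h * r) = v r + 2 * w (h * r) := by
    intro r
    have := e (h * r)
    rw [inv_mul_cancel_left] at this
    linear_combination this
  have eu : ∀ r, v (u * r) = v r + 2 * w' (u * r) := by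
    intro r
    have := e' (u * r)
    rw [inv_mul_cancel_left] at this
    linear_combination this
  -- `⟨v, h v⟩ = 0`
  have horth : ip v (tr h v) = 0 := by
    apply eq_zero_of_neg
    calc ip v (tr h v) = ip (tr h v) (tr h (tr h v)) := (ip_tr h v (tr h v)).symm
      _ = - ip v (tr h v) := by
        rw [ip_comm v (tr h v)]
        simp only [ip, ← Finset.sum_neg_distrib]
        refine Finset.sum_congr rfl fun r _ => ?_
        simp only [tr_apply]
        rw [← mul_assoc h⁻¹ h⁻¹ r, ← mul_inv_rev, hh, D.z_inv, hv]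
        ring
  have hN : ip v v = 2 * ip w w := by
    have h1 : 4 * ip w w = 2 * ip v v := by
      have h2 : 4 * ip w w = ip v v + ip (tr h v) (tr h v) - 2 * ip v (tr h v) := by
        simp only [ip, Finset.mul_sum, ← Finset.sum_add_distrib, ← Finset.sum_sub_distrib]
        refine Finset.sum_congr rfl fun r _ => ?_
        simp only [tr_apply]
        have := e r
        have h3 : 4 * (w r * w r) = (2 * w r) * (2 * w r) := by ring
        rw [h3, ← this]
        ring
      rw [h2, ip_tr, horth]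
      ring
    have h4 : (2 : ℤ_[2]) * (ip v v) = 2 * (2 * ip w w) := by linear_combination -h1
    exact mul_left_cancel₀ two_ne h4
  -- the sum over quadruples
  let c : Q → ℤ_[2] := fun r => v r ^ 2 + v (u * r) ^ 2 + v (h * r) ^ 2 + v (u * (h * r)) ^ 2
  have hc4 : ∀ r, (4 : ℤ_[2]) ∣ c r := by
    intro r
    refine ⟨v r ^ 2 + v r * (w' (u * r) + w (h * r) + (w (h * r) + w' (u * (h * r)))) +
      (w' (u * r) ^ 2 + w (h * r) ^ 2 + (w (h * r) + w' (u * (h * r))) ^ 2), ?_⟩
    show v r ^ 2 + v (u * r) ^ 2 + v (h * r) ^ 2 + v (u * (h * r)) ^ 2 = _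
    rw [eu r, eu (h * r), ev r]
    ring
  let S : Subgroup Q :=
    { carrier := {g | ∀ r, c (g * r) = c r}
      one_mem' := fun r => by rw [one_mul]
      mul_mem' := fun {a b} ha hb r => by rw [mul_assoc, ha, hb]
      inv_mem' := fun {a} ha r => by rw [← ha (a⁻¹ * r), mul_inv_cancel_left] }
  have huS : u ∈ S := by
    intro r
    show v (u * r) ^ 2 + v (u * (u * r)) ^ 2 + v (h * (u * r)) ^ 2 + v (u * (h * (u * r))) ^ 2 =
      v r ^ 2 + v (u * r) ^ 2 + v (h * r) ^ 2 + v (u * (h * r)) ^ 2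
    have e1 : u * (u * r) = D.z * r := by rw [← mul_assoc, hu]
    have e2 : h * (u * r) = D.z * (u * (h * r)) := by
      rw [← mul_assoc, huh]
      simp only [mul_assoc]
    have e3 : u * (h * (u * r)) = h * r := by
      rw [e2, ← mul_assoc u, ← D.z_comm, mul_assoc, ← mul_assoc u u, hu, ← mul_assoc, D.z_sq,
        one_mul]
    rw [e3, e1, e2, hvsq, hvsq]
    ring
  have hhS : h ∈ S := by
    intro r
    show v (h * r) ^ 2 + v (u * (h * r)) ^ 2 + v (h * (h * r)) ^ 2 + v (u * (h * (h * r))) ^ 2 =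
      v r ^ 2 + v (u * r) ^ 2 + v (h * r) ^ 2 + v (u * (h * r)) ^ 2
    have e1 : h * (h * r) = D.z * r := by rw [← mul_assoc, hh]
    have e2 : u * (h * (h * r)) = D.z * (u * r) := by
      rw [e1, ← mul_assoc, ← D.z_comm, mul_assoc]
    rw [e2, e1, hvsq, hvsq]
    ring
  have h8 := eight_dvd_card S huS hhS hne D.pgrp
  have hsum : ∑ r, c r = 4 * ip v v := by
    have hl : ∀ g : Q, ∑ r, v (g * r) ^ 2 = ip v v := by
      intro g
      have := Equiv.sum_comp (Equiv.mulLeft g) fun r => v r ^ 2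
      simp only [Equiv.coe_mulLeft] at this
      rw [this]
      simp only [ip, pow_two]
    have hl0 : ∑ r, v r ^ 2 = ip v v := by simp only [ip, pow_two]
    simp only [c, Finset.sum_add_distrib]
    rw [hl0, hl u, hl h]
    have : ∑ r, v (u * (h * r)) ^ 2 = ip v v := by
      rw [← hl (u * h)]
      refine Finset.sum_congr rfl fun r _ => ?_
      rw [mul_assoc]
    rw [this]
    ring
  have h32 := dvd_sum S c (fun g hg r => hg r) 4 hc4
  obtain ⟨k, hk⟩ := h8
  rw [hsum, hk] at h32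
  obtain ⟨m, hm⟩ := h32
  have h4 : (4 : ℤ_[2]) ≠ 0 := by norm_num
  have h8' : ip v v = 8 * (k * m) := by
    apply mul_left_cancel₀ h4
    rw [hm]
    push_cast
    ring
  refine ⟨k * m, ?_⟩
  apply mul_left_cancel₀ two_ne
  rw [← hN, h8']
  ring

end

end Pool.Agent.R630.CAQ
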