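import Pool.Agent.R630.CAQ.Top
import Mathlib.GroupTheory.SpecificGroups.Quaternion

set_option autoImplicit false
set_option linter.unusedSectionVars false

/-! # The generalized quaternion groups -/

namespace Pool.Agent.R630.CAQ

noncomputable section

open QuaternionGroup

variable (k : ℕ)

theorem two_n : ((2 ^ k : ℕ) : ZMod (2 * 2 ^ k)) + ((2 ^ k : ℕ) : ZMod (2 * 2 ^ k)) = 0 := by
  have h : ((2 * 2 ^ k : ℕ) : ZMod (2 * 2 ^ k)) = 0 := ZMod.natCast_self _
  rw [← h]
  push_cast
  ring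

/-- the only element of order two in `ZMod (2 * 2 ^ k)` -/
theorem eq_half {j : ZMod (2 * 2 ^ k)} (h : j + j = 0) (hj : j ≠ 0) : j = ((2 ^ k : ℕ) : ZMod (2 * 2 ^ k)) := by
  have : NeZero (2 * 2 ^ k) := ⟨by positivity⟩
  have h1 : ((j.val + j.val : ℕ) : ZMod (2 * 2 ^ k)) = 0 := by
    push_cast
    rw [ZMod.natCast_zmod_val]
    exact h
  rw [ZMod.natCast_eq_zero_iff] at h1
  have h2 : j.val < 2 * 2 ^ k := ZMod.val_lt j
  have h3 : j.val ≠ 0 := by
    rwa [Ne, ZMod.val_eq_zero]
  have h4 : j.val = 2 ^ k := by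
    obtain ⟨c, hc⟩ := h1
    have h5 : j.val = c * 2 ^ k := by
      have : 2 * j.val = 2 * (c * 2 ^ k) := by rw [two_mul, hc]; ring
      omega
    have hp : 0 < 2 ^ k := by positivity
    have h6 : c < 2 := by
      by_contra hcc
      have : 2 * 2 ^ k ≤ c * 2 ^ k := Nat.mul_le_mul_right _ (by omega)
      omega
    have h7 : c ≠ 0 := by
      rintro rfl
      exact h3 (by rw [h5, zero_mul])
    have h8 : c = 1 := by omega
    rw [h5, h8, one_mul]
  have h9 := ZMod.natCast_zmod_val j
  rw [h4] at h9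
  exact h9.symm

/-- the character -/
def chi : QuaternionGroup (2 ^ k) → ℤ
  | a _ => 0
  | xa _ => 2

theorem card_quat : Nat.card (QuaternionGroup (2 ^ k)) = 2 ^ (k + 2) := by
  have : NeZero (2 ^ k) := ⟨by positivity⟩
  rw [Nat.card_eq_fintype_card, QuaternionGroup.card]
  ring

theorem pgrp_quat : IsPGroup 2 (QuaternionGroup (2 ^ k)) := IsPGroup.of_card (card_quat k)

theorem n_ne : ((2 ^ k : ℕ) : ZMod (2 * 2 ^ k)) ≠ 0 := by
  intro h
  rw [ZMod.natCast_eq_zero_iff] at h
  have hp : 0 < 2 ^ k := by positivity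
  have := Nat.le_of_dvd hp h
  omega

theorem a_ne_one {j : ZMod (2 * 2 ^ k)} (hj : j ≠ 0) : (a j : QuaternionGroup (2 ^ k)) ≠ 1 := by
  intro h
  rw [QuaternionGroup.one_def] at h
  exact hj (QuaternionGroup.a.inj h)

theorem eq_z_of_sq {y : QuaternionGroup (2 ^ k)} (h : y * y = 1) (hy : y ≠ 1) :
    y = a ((2 ^ k : ℕ) : ZMod (2 * 2 ^ k)) := by
  cases y with
  | a j =>
    rw [QuaternionGroup.a_mul_a, QuaternionGroup.one_def] at h
    have h1 := QuaternionGroup.a.inj h
    have h2 : j ≠ 0 := by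
      rintro rfl
      exact hy rfl
    rw [eq_half k h1 h2]
  | xa j =>
    exfalso
    rw [QuaternionGroup.xa_mul_xa, add_sub_cancel_right] at h
    exact a_ne_one k (n_ne k) h

theorem pow_z {q : QuaternionGroup (2 ^ k)} (hq : q ≠ 1) :
    ∃ j : ℕ, q ^ j = a ((2 ^ k : ℕ) : ZMod (2 * 2 ^ k)) := by
  obtain ⟨t, ht⟩ := IsPGroup.iff_orderOf.1 (pgrp_quat k) q
  cases t with
  | zero =>
    exfalso
    rw [pow_zero, orderOf_eq_one_iff] at ht
    exact hq ht
  | succ t =>
    refine ⟨2 ^ t, eq_z_of_sq k ?_ ?_⟩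
    · rw [← pow_add, ← two_mul, ← pow_succ', ← ht, pow_orderOf_eq_one]
    · intro h
      have h1 := orderOf_dvd_of_pow_eq_one h
      rw [ht] at h1
      have := Nat.le_of_dvd (by positivity) h1
      rw [pow_succ] at this
      have hp : 0 < 2 ^ t := by positivity
      omega

theorem pow_quarter {i : ZMod (2 * 2 ^ k)} (hi : i + i ≠ 0) :
    ∃ j : ℕ, ∃ l : ZMod (2 * 2 ^ k), (a i : QuaternionGroup (2 ^ k)) ^ j = a l ∧
      l + l = ((2 ^ k : ℕ) : ZMod (2 * 2 ^ k)) := by
  obtain ⟨t, ht⟩ := IsPGroup.iff_orderOf.1 (pgrp_quat k) (a i)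
  have hpow : ∀ j : ℕ, (a i : QuaternionGroup (2 ^ k)) ^ j = a ((j : ZMod (2 * 2 ^ k)) * i) := by
    intro j
    induction j with
    | zero => rw [pow_zero, Nat.cast_zero, zero_mul, QuaternionGroup.one_def]
    | succ j ih =>
      rw [pow_succ, ih, QuaternionGroup.a_mul_a]
      congr 1
      push_cast
      ring
  rcases t with _ | _ | t
  · exfalso
    rw [pow_zero, orderOf_eq_one_iff, QuaternionGroup.one_def] at ht
    have := QuaternionGroup.a.inj ht
    exact hi (by rw [this, add_zero])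
  · exfalso
    have h1 : (a i : QuaternionGroup (2 ^ k)) ^ 2 = 1 := by
      have := pow_orderOf_eq_one (a i : QuaternionGroup (2 ^ k))
      rw [ht] at this
      simpa using this
    rw [pow_two, QuaternionGroup.a_mul_a, QuaternionGroup.one_def] at h1
    exact hi (QuaternionGroup.a.inj h1)
  · refine ⟨2 ^ t, ((2 ^ t : ℕ) : ZMod (2 * 2 ^ k)) * i, hpow _, ?_⟩
    have h0 : (a (((2 ^ t : ℕ) : ZMod (2 * 2 ^ k)) * i + ((2 ^ t : ℕ) : ZMod (2 * 2 ^ k)) * i) :
        QuaternionGroup (2 ^ k)) = (a i) ^ (2 ^ (t + 1)) := by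
      rw [← QuaternionGroup.a_mul_a, ← hpow, ← pow_add]
      congr 1
      rw [pow_succ]
      ring
    apply QuaternionGroup.a.inj (n := 2 ^ k)
    rw [h0]
    apply eq_z_of_sq
    · rw [← pow_add, ← two_mul, ← pow_succ', ← ht, pow_orderOf_eq_one]
    · intro h
      have h1 := orderOf_dvd_of_pow_eq_one h
      rw [ht] at h1
      have := Nat.le_of_dvd (by positivity) h1
      rw [pow_succ 2 (t + 1)] at this
      have hp : 0 < 2 ^ (t + 1) := by positivity
      omega

theorem xa_comm_a {j i : ZMod (2 * 2 ^ k)} :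
    (xa j * a i : QuaternionGroup (2 ^ k)) = a i * xa j ↔ i + i = 0 := by
  rw [QuaternionGroup.xa_mul_a, QuaternionGroup.a_mul_xa]
  constructor
  · intro h
    have := QuaternionGroup.xa.inj h
    linear_combination this
  · intro h
    congr 1
    linear_combination h

theorem xa_comm_xa {j i : ZMod (2 * 2 ^ k)} :
    (xa j * xa i : QuaternionGroup (2 ^ k)) = xa i * xa j ↔ (i - j) + (i - j) = 0 := by
  rw [QuaternionGroup.xa_mul_xa, QuaternionGroup.xa_mul_xa]
  constructor
  · intro h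
    have := QuaternionGroup.a.inj h
    linear_combination this
  · intro h
    congr 1
    linear_combination h

theorem nc_aux {S : Subgroup (QuaternionGroup (2 ^ k))} {i j : ZMod (2 * 2 ^ k)}
    (hi : (a i : QuaternionGroup (2 ^ k)) ∈ S) (hj : (xa j : QuaternionGroup (2 ^ k)) ∈ S)
    (h : i + i ≠ 0) : ∃ u ∈ S, ∃ h ∈ S, u * u = a ((2 ^ k : ℕ) : ZMod (2 * 2 ^ k)) ∧
      h * h = a ((2 ^ k : ℕ) : ZMod (2 * 2 ^ k)) ∧
      h * u = a ((2 ^ k : ℕ) : ZMod (2 * 2 ^ k)) * (u * h) ∧ chi k h = 2 := by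
  obtain ⟨e, l, h1, h2⟩ := pow_quarter k h
  refine ⟨a l, ?_, xa j, hj, ?_, ?_, ?_, rfl⟩
  · rw [← h1]
    exact pow_mem hi e
  · rw [QuaternionGroup.a_mul_a, h2]
  · rw [QuaternionGroup.xa_mul_xa, add_sub_cancel_right]
  · rw [QuaternionGroup.xa_mul_a, QuaternionGroup.a_mul_xa, QuaternionGroup.a_mul_xa]
    congr 1
    linear_combination h2 + two_n k

/-- The data for the generalized quaternion group of order `2 ^ (k + 2)`. -/
def quatData [Fintype (QuaternionGroup (2 ^ k))] : Data (QuaternionGroup (2 ^ k)) where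
  z := a ((2 ^ k : ℕ) : ZMod (2 * 2 ^ k))
  χ := chi k
  z_ne := a_ne_one k (n_ne k)
  z_sq := by
    rw [QuaternionGroup.a_mul_a, two_n, QuaternionGroup.one_def]
  z_comm := by
    intro q
    cases q with
    | a i =>
      rw [QuaternionGroup.a_mul_a, QuaternionGroup.a_mul_a, add_comm]
    | xa i =>
      exact ((xa_comm_a k).2 (two_n k)).symm
  pow := fun q hq => pow_z k hq
  cent := by
    intro q p p' hq hqz hp hp'
    have hno : ∀ i : ZMod (2 * 2 ^ k), q = a i → i + i ≠ 0 := by
      rintro i rfl h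
      have : i ≠ 0 := by
        rintro rfl
        exact hq rfl
      exact hqz (by rw [eq_half k h this])
    cases q with
    | a i =>
      have hi := hno i rfl
      cases p with
      | xa j => exact absurd ((xa_comm_a k).1 hp) hi
      | a j =>
        cases p' with
        | xa j' => exact absurd ((xa_comm_a k).1 hp') hi
        | a j' => rw [QuaternionGroup.a_mul_a, QuaternionGroup.a_mul_a, add_comm]
    | xa i =>
      cases p with
      | a j =>
        have h1 := (xa_comm_a k).1 hp.symm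
        cases p' with
        | a j' => rw [QuaternionGroup.a_mul_a, QuaternionGroup.a_mul_a, add_comm]
        | xa j' => exact ((xa_comm_a k).2 h1).symm
      | xa j =>
        have h1 := (xa_comm_xa k).1 hp
        cases p' with
        | a j' => exact (xa_comm_a k).2 ((xa_comm_a k).1 hp'.symm)
        | xa j' =>
          have h2 := (xa_comm_xa k).1 hp'
          rw [xa_comm_xa]
          linear_combination h1 - h2
  χ_mul := by
    intro p q
    cases p <;> cases q <;> simp [chi]
  χ_even := by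
    intro q
    cases q <;> simp [chi]
  χ_z := by simp [chi]
  pgrp := pgrp_quat k
  nc := by
    intro S p p' hp hp' hne
    cases p with
    | a i =>
      cases p' with
      | a i' =>
        exact absurd (by rw [QuaternionGroup.a_mul_a, QuaternionGroup.a_mul_a, add_comm]) hne
      | xa j =>
        exact nc_aux k hp hp' (fun h => hne ((xa_comm_a k).2 h).symm)
    | xa j =>
      cases p' with
      | a i => exact nc_aux k hp' hp (fun h => hne ((xa_comm_a k).2 h))
      | xa i =>
        have h1 : (a ((2 ^ k : ℕ) + i - j) : QuaternionGroup (2 ^ k)) ∈ S := by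
          rw [← QuaternionGroup.xa_mul_xa]
          exact mul_mem hp hp'
        refine nc_aux k h1 hp (fun h => hne ((xa_comm_xa k).2 ?_))
        linear_combination h - two_n k

theorem final (n : ℕ) :
    ∃ (Γ : Type) (_ : Group Γ) (_ : TopologicalSpace Γ) (_ : IsTopologicalGroup Γ)
      (_ : CompactSpace Γ) (_ : T2Space Γ) (_ : TotallyDisconnectedSpace Γ),
      (∀ g : Γ, g ≠ 1 → ∀ x y : Γ, x * g = g * x → y * g = g * y → x * y = y * x) ∧
      ∃ (N : Subgroup Γ) (_ : N.Normal), IsClosed (N : Set Γ) ∧ IsOpen (N : Set Γ) ∧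
        (∀ x ∈ N, ∀ y ∈ N, x * y = y * x) ∧
        Nonempty (Γ ⧸ N ≃* QuaternionGroup (2 ^ (n - 2))) := by
  have : NeZero (2 ^ (n - 2)) := ⟨by positivity⟩
  let _ : TopologicalSpace (QuaternionGroup (2 ^ (n - 2))) := ⊥
  have : DiscreteTopology (QuaternionGroup (2 ^ (n - 2))) := ⟨rfl⟩
  refine main (quatData (n - 2)) ?_
  intro q
  cases q
  · left; rfl
  · right; rfl

end

end Pool.Agent.R630.CAQ
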