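import Pool.Agent.R630.CAQ.CA

set_option autoImplicit false
set_option linter.unusedSectionVars false

/-! # Topology and the quotient map -/

namespace Pool.Agent.R630.CAQ

noncomputable section

variable {Q : Type} [Group Q] [Fintype Q] [TopologicalSpace Q] [DiscreteTopology Q]
variable (D : Data Q)

theorem isClosed_dvd (m : ℤ_[2]) : IsClosed {x : ℤ_[2] | m ∣ x} := by
  have h : {x : ℤ_[2] | m ∣ x} = Set.range fun y => m * y := by
    ext x
    constructor
    · rintro ⟨y, hy⟩
      exact ⟨y, hy.symm⟩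
    · rintro ⟨y, hy⟩
      exact ⟨y, hy.symm⟩
  rw [h]
  exact (isCompact_range (continuous_const.mul continuous_id)).isClosed

theorem isClosed_G : IsClosed (G D : Set (W Q)) := by
  have h : (G D : Set (W Q)) = (⋂ r, {x : W Q | x.f (D.z * r) = - x.f r}) ∩
      {x : W Q | (4 : ℤ_[2]) ∣ ip x.f x.f - (D.χ x.q : ℤ_[2])} := by
    ext x
    simp only [Set.mem_inter_iff, Set.mem_iInter]
    exact Iff.rfl
  rw [h]
  have hc : ∀ r, Continuous fun x : W Q => x.f r := fun r =>
    (continuous_apply r).comp continuous_f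
  refine IsClosed.inter (isClosed_iInter fun r => isClosed_eq (hc _) (hc _).neg) ?_
  have h2 : Continuous fun x : W Q => ip x.f x.f - (D.χ x.q : ℤ_[2]) := by
    refine Continuous.sub ?_ ?_
    · unfold ip
      exact continuous_finsetSum _ fun r _ => (hc r).mul (hc r)
    · exact (continuous_of_discreteTopology (f := fun q : Q => (D.χ q : ℤ_[2]))).comp continuous_q
  exact (isClosed_dvd 4).preimage h2

instance : CompactSpace (G D) := isCompact_iff_compactSpace.1 (isClosed_G D).isCompact

/-- the map to `Q` -/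
def toQ : G D →* Q where
  toFun x := x.1.q
  map_one' := rfl
  map_mul' _ _ := rfl

theorem continuous_toQ : Continuous (toQ D) := continuous_q.comp continuous_subtype_val

theorem toQ_surj (hχ : ∀ q, D.χ q = 0 ∨ D.χ q = 2) : Function.Surjective (toQ D) := by
  classical
  intro q
  rcases hχ q with h | h
  · refine ⟨⟨⟨0, q⟩, ⟨fun r => by simp, ?_⟩⟩, rfl⟩
    show (4 : ℤ_[2]) ∣ ip 0 0 - (D.χ q : ℤ_[2])
    rw [h]
    simp [ip]
  · let F : Q → ℤ_[2] := Pi.single 1 1 - Pi.single D.z 1
    refine ⟨⟨⟨F, q⟩, ⟨fun r => ?_, ?_⟩⟩, rfl⟩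
    · show F (D.z * r) = - F r
      have h1 : (D.z * r = 1) ↔ r = D.z := by
        rw [mul_eq_one_iff_eq_inv, eq_comm, inv_eq_iff_eq_inv, D.z_inv]
      have h2 : (D.z * r = D.z) ↔ r = 1 := by
        constructor
        · intro h
          exact mul_left_cancel (a := D.z) (by rw [h, mul_one])
        · rintro rfl
          rw [mul_one]
      simp only [F, Pi.sub_apply, Pi.single_apply, h1, h2]
      ring
    · show (4 : ℤ_[2]) ∣ ip F F - (D.χ q : ℤ_[2])
      rw [h]
      have h3 : ip F F = 2 := by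
        simp only [ip, F, Pi.sub_apply, Pi.single_apply]
        have : ∀ r : Q, ((if r = 1 then (1 : ℤ_[2]) else 0) - (if r = D.z then 1 else 0)) *
            ((if r = 1 then (1 : ℤ_[2]) else 0) - (if r = D.z then 1 else 0)) =
            (if r = 1 then (1 : ℤ_[2]) else 0) + (if r = D.z then 1 else 0) := by
          intro r
          by_cases hr : r = 1
          · have : ¬ (1 : Q) = D.z := fun h => D.z_ne h.symm
            simp [hr, this]
          · by_cases hr' : r = D.z
            · simp [hr', D.z_ne]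
            · simp [hr, hr']
        rw [Finset.sum_congr rfl fun r _ => this r, Finset.sum_add_distrib]
        simp
        norm_num
      rw [h3]
      simp

theorem main (hχ : ∀ q, D.χ q = 0 ∨ D.χ q = 2) :
    ∃ (Γ : Type) (_ : Group Γ) (_ : TopologicalSpace Γ) (_ : IsTopologicalGroup Γ)
      (_ : CompactSpace Γ) (_ : T2Space Γ) (_ : TotallyDisconnectedSpace Γ),
      (∀ g : Γ, g ≠ 1 → ∀ x y : Γ, x * g = g * x → y * g = g * y → x * y = y * x) ∧
      ∃ (N : Subgroup Γ) (_ : N.Normal), IsClosed (N : Set Γ) ∧ IsOpen (N : Set Γ) ∧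
        (∀ x ∈ N, ∀ y ∈ N, x * y = y * x) ∧ Nonempty (Γ ⧸ N ≃* Q) := by
  refine ⟨G D, inferInstance, inferInstance, inferInstance, inferInstance, inferInstance,
    inferInstance, ?_, (toQ D).ker, inferInstance, ?_, ?_, ?_, ?_⟩
  · rintro ⟨g, hg⟩ hg1 ⟨x, hx⟩ ⟨y, hy⟩ h1 h2
    apply Subtype.ext
    refine ca hg hx hy ?_ (congrArg Subtype.val h1) (congrArg Subtype.val h2)
    intro h
    exact hg1 (Subtype.ext h)
  · have : ((toQ D).ker : Set (G D)) = toQ D ⁻¹' {1} := by
      ext x
      simp [MonoidHom.mem_ker]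
    rw [this]
    exact (isClosed_discrete _).preimage (continuous_toQ D)
  · have : ((toQ D).ker : Set (G D)) = toQ D ⁻¹' {1} := by
      ext x
      simp [MonoidHom.mem_ker]
    rw [this]
    exact (isOpen_discrete _).preimage (continuous_toQ D)
  · rintro ⟨x, hx⟩ hx' ⟨y, hy⟩ hy'
    have hxq : x.q = 1 := hx'
    have hyq : y.q = 1 := hy'
    apply Subtype.ext
    show x * y = y * x
    ext r
    · simp only [mul_f, hxq, hyq, inv_one, one_mul]
      ring
    · simp [hxq, hyq]
  · exact ⟨QuotientGroup.quotientKerEquivOfSurjective _ (toQ_surj D hχ)⟩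

end

end Pool.Agent.R630.CAQ
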